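import Mathlib

set_option autoImplicit false

namespace Pool.Agent.H.MP_81ecdf_nt

open Polynomial WithZero

variable {F : Type} [Field F]

noncomputable def emb (p : F[X]) : LaurentSeries F :=
  aeval (HahnSeries.single (-1 : ℤ) (1 : F) : LaurentSeries F) p

noncomputable def fl (x : LaurentSeries F) : F[X] :=
  ∑ i ∈ Finset.range ((-x.order).toNat + 1), monomial i (x.coeff (-(i : ℤ)))

noncomputable def cq (x : LaurentSeries F) : ℕ → LaurentSeries F
  | 0 => x
  | i + 1 => (cq x i - emb (fl (cq x i)))⁻¹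

noncomputable def pq (x : LaurentSeries F) (i : ℕ) : F[X] := fl (cq x i)

noncomputable abbrev vv (x : LaurentSeries F) : WithZero (Multiplicative ℤ) := Valued.v x

lemma emb_add (p q : F[X]) : emb (p + q) = emb p + emb q := by simp [emb]
lemma emb_sub (p q : F[X]) : emb (p - q) = emb p - emb q := by simp [emb]
lemma emb_neg (p : F[X]) : emb (-p) = - emb p := by simp [emb]
lemma emb_mul (p q : F[X]) : emb (p * q) = emb p * emb q := by simp [emb]
lemma emb_pow (p : F[X]) (n : ℕ) : emb (p ^ n) = emb p ^ n := by simp [emb]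
lemma emb_one : emb (1 : F[X]) = 1 := by simp [emb]
lemma emb_zero : emb (0 : F[X]) = 0 := by simp [emb]

lemma emb_monomial (i : ℕ) (a : F) :
    emb (monomial i a) = HahnSeries.single (-(i : ℤ)) a := by
  simp only [emb, aeval_monomial, LaurentSeries.algebraMap_apply, HahnSeries.single_pow,
    HahnSeries.C_apply, HahnSeries.single_mul_single]
  simp

lemma emb_coeff (p : F[X]) (n : ℤ) :
    (emb p).coeff n = if n ≤ 0 then p.coeff (-n).toNat else 0 := by
  induction p using Polynomial.induction_on' with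
  | add p q hp hq =>
    rw [emb_add, HahnSeries.coeff_add, hp, hq]
    split_ifs <;> simp
  | monomial i a =>
    rw [emb_monomial, HahnSeries.coeff_single, coeff_monomial]
    by_cases h : n = -(i : ℤ)
    · subst h; simp
    · rw [if_neg h]
      split_ifs with h1 h2
      · exfalso; omega
      · rfl
      · rfl

lemma vv_le_iff (x : LaurentSeries F) (d : ℤ) :
    vv x ≤ exp d ↔ ∀ n : ℤ, n < -d → x.coeff n = 0 := by
  have := LaurentSeries.valuation_le_iff_coeff_lt_eq_zero F (D := -d) (f := x)
  rwa [neg_neg] at this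

lemma vv_emb_le (p : F[X]) : vv (emb p) ≤ exp (p.natDegree : ℤ) := by
  rw [vv_le_iff]
  intro n hn
  rw [emb_coeff]
  split_ifs with h
  · apply coeff_eq_zero_of_natDegree_lt; omega
  · rfl

lemma le_exp_sub_one {a : WithZero (Multiplicative ℤ)} {d : ℤ} (h : a < exp d) :
    a ≤ exp (d - 1) := by
  by_cases h0 : a = 0
  · simp [h0]
  · rw [← exp_log h0] at h ⊢
    rw [exp_lt_exp] at h
    rw [exp_le_exp]; omega

lemma vv_emb {p : F[X]} (hp : p ≠ 0) : vv (emb p) = exp (p.natDegree : ℤ) := by
  refine le_antisymm (vv_emb_le p) ?_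
  by_contra h
  have h2 := le_exp_sub_one (not_le.mp h)
  rw [vv_le_iff] at h2
  have h3 := h2 (-(p.natDegree : ℤ)) (by omega)
  rw [emb_coeff, if_pos (by omega)] at h3
  simp at h3
  exact hp h3

lemma emb_eq_zero {p : F[X]} (h : emb p = 0) : p = 0 := by
  by_contra hp
  have := vv_emb hp
  rw [h] at this
  simp [vv] at this
  exact exp_ne_zero this.symm

lemma natDegree_le_of_vv {p : F[X]} {d : ℕ} (h : vv (emb p) ≤ exp (d : ℤ)) : p.natDegree ≤ d := by
  by_cases hp : p = 0
  · simp [hp]
  · rw [vv_emb hp, exp_le_exp] at h; omega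

lemma fl_coeff (x : LaurentSeries F) (j : ℕ) : (fl x).coeff j = x.coeff (-(j : ℤ)) := by
  rw [fl, finset_sum_coeff]
  simp only [coeff_monomial]
  rw [Finset.sum_ite_eq' (Finset.range ((-x.order).toNat + 1)) j (fun i => x.coeff (-(i : ℤ)))]
  split_ifs with h
  · rfl
  · rw [Finset.mem_range] at h
    symm
    apply HahnSeries.coeff_eq_zero_of_lt_order
    omega

lemma vv_sub_fl (x : LaurentSeries F) : vv (x - emb (fl x)) ≤ exp (-1) := by
  rw [vv_le_iff]
  intro n hn
  rw [HahnSeries.coeff_sub, emb_coeff, if_pos (by omega), fl_coeff]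
  have : -(((-n).toNat : ℕ) : ℤ) = n := by omega
  rw [this, sub_self]

end Pool.Agent.H.MP_81ecdf_nt
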