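import Pool.Agent.H.MP_81ecdf_nt.A

set_option autoImplicit false

namespace Pool.Agent.H.MP_81ecdf_nt

open Polynomial WithZero

variable {F : Type} [Field F]

def Irr (x : LaurentSeries F) : Prop := ∀ a b : F[X], a ≠ 0 → emb a * x ≠ emb b

lemma Irr.sub_ne {x : LaurentSeries F} (h : Irr x) (p : F[X]) : x - emb p ≠ 0 := by
  intro h0
  apply h 1 p one_ne_zero
  rw [emb_one, one_mul]
  exact sub_eq_zero.mp h0

lemma Irr.step {x : LaurentSeries F} (h : Irr x) (p : F[X]) : Irr (x - emb p)⁻¹ := by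
  intro a b ha hab
  have h0 := h.sub_ne p
  have h1 : emb a = emb b * (x - emb p) := by
    rw [← hab]; field_simp
  have hb : b ≠ 0 := by
    rintro rfl
    rw [emb_zero, zero_mul] at h1
    exact ha (emb_eq_zero h1)
  apply h b (a + b * p) hb
  rw [emb_add, emb_mul, h1]; ring

lemma Irr.cq {x : LaurentSeries F} (h : Irr x) (i : ℕ) : Irr (cq x i) := by
  induction i with
  | zero => exact h
  | succ i ih => exact ih.step _

lemma vv_cq {x : LaurentSeries F} (h : Irr x) (i : ℕ) :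
    vv (cq x (i + 1)) = exp ((pq x (i + 1)).natDegree : ℤ) ∧ 1 ≤ (pq x (i + 1)).natDegree := by
  have h0 := (h.cq i).sub_ne (fl (cq x i))
  have h1 := vv_sub_fl (cq x i)
  have h2 : exp (1 : ℤ) ≤ vv (cq x (i + 1)) := by
    show exp (1 : ℤ) ≤ Valued.v (cq x i - emb (fl (cq x i)))⁻¹
    rw [map_inv₀, le_inv_comm₀ (by simp [zero_lt_iff]) (by simpa [zero_lt_iff] using h0), ← exp_neg]
    exact h1
  have h3 := vv_sub_fl (cq x (i + 1))
  have h4 : vv (cq x (i + 1) - emb (fl (cq x (i + 1)))) < vv (cq x (i + 1)) :=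
    lt_of_le_of_lt h3 (lt_of_lt_of_le (by rw [exp_lt_exp]; omega) h2)
  have h5 : vv (emb (fl (cq x (i + 1)))) = vv (cq x (i + 1)) := by
    have := Valuation.map_sub_eq_of_lt_left (Valued.v) h4
    simpa using this
  have h6 : fl (cq x (i + 1)) ≠ 0 := by
    intro h7
    rw [h7, emb_zero] at h5
    rw [← h5] at h2
    simp [vv] at h2
  rw [vv_emb h6] at h5
  refine ⟨h5.symm, ?_⟩
  rw [← h5, exp_le_exp] at h2
  unfold pq; omega

noncomputable def Y (x y : LaurentSeries F) : ℕ → LaurentSeries F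
  | 0 => -1
  | 1 => y - emb (pq x 0)
  | i + 2 => emb (pq x (i + 1)) * Y x y (i + 1) + Y x y i

noncomputable def D (x : LaurentSeries F) (i : ℕ) : ℕ :=
  ∑ j ∈ Finset.range i, (pq x (j + 1)).natDegree

lemma D_succ (x : LaurentSeries F) (i : ℕ) : D x (i + 1) = D x i + (pq x (i + 1)).natDegree := by
  simp [D, Finset.sum_range_succ]

lemma Y_mul {x : LaurentSeries F} (h : Irr x) (i : ℕ) :
    Y x x (i + 1) * cq x (i + 1) = - Y x x i := by
  induction i with
  | zero =>
    have h0 := h.sub_ne (fl x)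
    show (x - emb (fl x)) * (x - emb (fl x))⁻¹ = - (-1)
    rw [mul_inv_cancel₀ h0, neg_neg]
  | succ i ih =>
    have h0 := (h.cq (i + 1)).sub_ne (fl (cq x (i + 1)))
    show (emb (pq x (i + 1)) * Y x x (i + 1) + Y x x i) *
      (cq x (i + 1) - emb (fl (cq x (i + 1))))⁻¹ = _
    have : Y x x i = - (Y x x (i + 1) * cq x (i + 1)) := by rw [ih, neg_neg]
    rw [this]
    unfold pq
    field_simp
    ring

lemma vv_Y {x : LaurentSeries F} (h : Irr x) (i : ℕ) : vv (Y x x i) = exp (-(D x i : ℤ)) := by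
  induction i with
  | zero => simp [Y, D, vv]
  | succ i ih =>
    have h1 := congrArg vv (Y_mul h i)
    simp only [vv, map_mul, Valuation.map_neg] at h1
    have h2 := (vv_cq h i).1
    simp only [vv] at ih h2
    rw [ih, h2] at h1
    have h3 : vv (Y x x (i + 1)) = exp (-(D x i : ℤ)) * (exp ((pq x (i + 1)).natDegree : ℤ))⁻¹ := by
      rw [← h1, mul_inv_cancel_right₀ exp_ne_zero]
    rw [h3, ← exp_neg, ← exp_add, D_succ]
    congr 1; push_cast; ring

lemma vv_add_le {a b : LaurentSeries F} {g : WithZero (Multiplicative ℤ)} (ha : vv a ≤ g)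
    (hb : vv b ≤ g) : vv (a + b) ≤ g := Valuation.map_add_le _ ha hb

lemma vv_sub_le {a b : LaurentSeries F} {g : WithZero (Multiplicative ℤ)} (ha : vv a ≤ g)
    (hb : vv b ≤ g) : vv (a - b) ≤ g := Valuation.map_sub_le _ ha hb

lemma vv_mul_le {a b : LaurentSeries F} {m n : ℤ} (ha : vv a ≤ exp m)
    (hb : vv b ≤ exp n) : vv (a * b) ≤ exp (m + n) := by
  rw [exp_add]
  show Valued.v (a * b) ≤ _
  rw [map_mul]
  exact mul_le_mul' ha hb

lemma vv_mono {a : LaurentSeries F} {m n : ℤ} (ha : vv a ≤ exp m) (h : m ≤ n) : vv a ≤ exp n :=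
  ha.trans (exp_le_exp.mpr h)

lemma vv_pow_le {a : LaurentSeries F} {m : ℤ} (ha : vv a ≤ exp m) (n : ℕ) :
    vv (a ^ n) ≤ exp (m * n) := by
  induction n with
  | zero => simp [vv]
  | succ n ih =>
    rw [pow_succ]
    refine vv_mono (vv_mul_le ih ha) (le_of_eq ?_)
    push_cast; ring

lemma vv_Y' {x y : LaurentSeries F} {m : ℤ} (hm : 0 ≤ m) (hx : vv x ≤ exp m) (hy : vv y ≤ exp m)
    (i : ℕ) : vv (Y x y (i + 1)) ≤ exp ((D x i : ℤ) + m) ∧ vv (Y x y i) ≤ exp ((D x i : ℤ) + m) := by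
  induction i with
  | zero =>
    constructor
    · show vv (y - emb (fl x)) ≤ _
      have h1 : emb (fl x) = x - (x - emb (fl x)) := by ring
      have h2 : vv (emb (fl x)) ≤ exp m := by
        rw [h1]
        exact vv_sub_le hx (vv_mono (vv_sub_fl x) (by omega))
      simpa [D] using vv_sub_le hy h2
    · show vv (-1) ≤ _
      simp only [vv, Valuation.map_neg, map_one, D, Finset.range_zero, Finset.sum_empty,
        Nat.cast_zero, zero_add]
      rw [← exp_zero, exp_le_exp]; exact hm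
  | succ i ih =>
    have hD := D_succ x i
    constructor
    · show vv (emb (pq x (i + 1)) * Y x y (i + 1) + Y x y i) ≤ _
      refine vv_add_le (vv_mono (vv_mul_le (vv_emb_le _) ih.1) (by omega)) (vv_mono ih.2 (by omega))
    · exact vv_mono ih.1 (by omega)

lemma cq_shift {x : LaurentSeries F} {i j : ℕ} (h : cq x i = cq x j) (n : ℕ) :
    cq x (i + n) = cq x (j + n) := by
  induction n with
  | zero => exact h
  | succ n ih =>
    show (cq x (i + n) - emb (fl (cq x (i + n))))⁻¹ = (cq x (j + n) - emb (fl (cq x (j + n))))⁻¹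
    rw [ih]

lemma finite_natDegree_le [Finite F] (d : ℕ) : {p : F[X] | p.natDegree ≤ d}.Finite := by
  have h1 : Finite (degreeLT F (d + 1)) := Finite.of_equiv _ (degreeLTEquiv F (d + 1)).toEquiv.symm
  have h2 : ((degreeLT F (d + 1) : Submodule F F[X]) : Set F[X]).Finite := Set.toFinite _
  refine h2.subset ?_
  intro p hp
  simp only [SetLike.mem_coe, mem_degreeLT]
  refine lt_of_le_of_lt degree_le_natDegree ?_
  exact_mod_cast Nat.lt_succ_of_le hp

end Pool.Agent.H.MP_81ecdf_nt
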