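import Pool.Agent.H.MP_81ecdf_nt.B

set_option autoImplicit false

namespace Pool.Agent.H.MP_81ecdf_nt

open Polynomial WithZero

abbrev F2 := ZMod 2
abbrev K := LaurentSeries F2

noncomputable def T : K := emb X

lemma two_zero : (2 : K) = 0 := by
  have h : (2 : F2[X]) = 0 := by
    have : (2 : F2) = 0 := rfl
    rw [show (2 : F2[X]) = C (2 : F2) from rfl, this, map_zero]
  have h2 : emb (2 : F2[X]) = 2 := by
    rw [show (2 : F2[X]) = 1 + 1 by norm_num, emb_add, emb_one]; norm_num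
  rw [← h2, h, emb_zero]

lemma frob (a b : K) (r : ℕ) : (a + b) ^ (2 ^ r) = a ^ (2 ^ r) + b ^ (2 ^ r) := by
  induction r with
  | zero => simp
  | succ r ih =>
    rw [pow_succ, pow_mul, ih, pow_mul, pow_mul]
    linear_combination (a ^ 2 ^ r * b ^ 2 ^ r) * two_zero

lemma vv_T : vv T = exp 1 := by
  rw [T, vv_emb X_ne_zero]; simp

lemma vv_Tpow (k : ℕ) : vv (T ^ k) = exp (k : ℤ) := by
  rw [T, ← emb_pow, vv_emb (pow_ne_zero _ X_ne_zero)]; simp

structure Ctx (θ θ' : K) : Prop where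
  hs : θ + θ' = T ^ 2 + 1
  hp : θ * θ' = T
  hv : vv θ ≤ exp (-1)

variable {θ θ' : K}

lemma vv_add_eq {a b : K} (h : vv b < vv a) : vv (a + b) = vv a :=
  Valuation.map_add_eq_of_lt_left _ h

lemma vv_one : vv (1 : K) = exp 0 := by simp [vv]

lemma vv_mul (a b : K) : vv (a * b) = vv a * vv b := map_mul _ _ _

lemma Ctx.hv' (c : Ctx θ θ') : vv θ' = exp 2 := by
  have h1 : θ' = T ^ 2 + (1 + θ) := by linear_combination c.hs - θ * two_zero
  have h2 : vv (1 + θ) ≤ exp 0 := vv_add_le vv_one.le (vv_mono c.hv (by omega))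
  have h3 : vv (T ^ 2) = exp 2 := vv_Tpow 2
  rw [h1, vv_add_eq (by rw [h3]; exact lt_of_le_of_lt h2 (by rw [exp_lt_exp]; omega)), h3]

def O (θ θ' : K) (k : ℕ) (x x' : K) : Prop :=
  ∃ u v : F2[X], x = emb u + emb v * T ^ k * θ ∧ x' = emb u + emb v * T ^ k * θ'

lemma O.poly (k : ℕ) (p : F2[X]) : O θ θ' k (emb p) (emb p) :=
  ⟨p, 0, by simp [emb_zero], by simp [emb_zero]⟩

lemma O.gen (k : ℕ) : O θ θ' k (T ^ k * θ) (T ^ k * θ') :=
  ⟨0, 1, by simp [emb_zero, emb_one], by simp [emb_zero, emb_one]⟩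

lemma O.add {k : ℕ} {x x' y y' : K} (h : O θ θ' k x x') (h' : O θ θ' k y y') :
    O θ θ' k (x + y) (x' + y') := by
  obtain ⟨u, v, rfl, rfl⟩ := h
  obtain ⟨a, b, rfl, rfl⟩ := h'
  exact ⟨u + a, v + b, by rw [emb_add, emb_add]; ring, by rw [emb_add, emb_add]; ring⟩

lemma O.sub {k : ℕ} {x x' y y' : K} (h : O θ θ' k x x') (h' : O θ θ' k y y') :
    O θ θ' k (x - y) (x' - y') := by
  obtain ⟨u, v, rfl, rfl⟩ := h
  obtain ⟨a, b, rfl, rfl⟩ := h'
  exact ⟨u - a, v - b, by rw [emb_sub, emb_sub]; ring, by rw [emb_sub, emb_sub]; ring⟩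

lemma O.mul (c : Ctx θ θ') {k : ℕ} {x x' y y' : K} (h : O θ θ' k x x') (h' : O θ θ' k y y') :
    O θ θ' k (x * y) (x' * y') := by
  obtain ⟨u, v, rfl, rfl⟩ := h
  obtain ⟨a, b, rfl, rfl⟩ := h'
  refine ⟨u * a - v * b * X ^ k * X ^ k * X, u * b + v * a + v * b * X ^ k * (X ^ 2 + 1), ?_, ?_⟩
  · simp only [emb_add, emb_sub, emb_mul, emb_pow, emb_one]
    change _ = _ - _ * _ * T ^ k * T ^ k * T + (_ + _ + _ * _ * T ^ k * (T ^ 2 + 1)) * T ^ k * θ
    linear_combination (emb v * emb b * T ^ k * T ^ k * θ) * c.hs -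
      (emb v * emb b * T ^ k * T ^ k) * c.hp
  · simp only [emb_add, emb_sub, emb_mul, emb_pow, emb_one]
    change _ = _ - _ * _ * T ^ k * T ^ k * T + (_ + _ + _ * _ * T ^ k * (T ^ 2 + 1)) * T ^ k * θ'
    linear_combination (emb v * emb b * T ^ k * T ^ k * θ') * c.hs -
      (emb v * emb b * T ^ k * T ^ k) * c.hp

lemma O.swap (c : Ctx θ θ') {k : ℕ} {x x' : K} (h : O θ θ' k x x') : O θ θ' k x' x := by
  obtain ⟨u, v, rfl, rfl⟩ := h
  refine ⟨u + v * X ^ k * (X ^ 2 + 1), -v, ?_, ?_⟩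
  · simp only [emb_add, emb_neg, emb_mul, emb_pow, emb_one]
    change _ = _ + _ * T ^ k * (T ^ 2 + 1) + _
    linear_combination (emb v * T ^ k) * c.hs
  · simp only [emb_add, emb_neg, emb_mul, emb_pow, emb_one]
    change _ = _ + _ * T ^ k * (T ^ 2 + 1) + _
    linear_combination (emb v * T ^ k) * c.hs

lemma O.pow (c : Ctx θ θ') {k : ℕ} {x x' : K} (h : O θ θ' k x x') (n : ℕ) :
    O θ θ' k (x ^ n) (x' ^ n) := by
  induction n with
  | zero => simpa [emb_one] using O.poly (θ := θ) (θ' := θ') k 1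
  | succ n ih => rw [pow_succ, pow_succ]; exact ih.mul c h

lemma O.mono {k l : ℕ} (hkl : k ≤ l) {x x' : K} (h : O θ θ' l x x') : O θ θ' k x x' := by
  obtain ⟨u, v, rfl, rfl⟩ := h
  obtain ⟨m, rfl⟩ := Nat.exists_eq_add_of_le hkl
  refine ⟨u, v * X ^ m, ?_, ?_⟩ <;>
  · simp only [emb_mul, emb_pow]
    change _ = _ + _ * T ^ m * _ * _
    ring

lemma O.lift {x x' : K} (h : O θ θ' 0 x x') (k : ℕ) (p : F2[X]) :
    O θ θ' k (emb p + T ^ k * x) (emb p + T ^ k * x') := by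
  obtain ⟨u, v, rfl, rfl⟩ := h
  refine ⟨p + X ^ k * u, v, ?_, ?_⟩ <;>
  · simp only [emb_add, emb_mul, emb_pow]
    change _ = _ + T ^ k * _ + _
    ring

lemma O.norm (c : Ctx θ θ') {k : ℕ} {x x' : K} (h : O θ θ' k x x') : ∃ n, x * x' = emb n := by
  obtain ⟨u, v, rfl, rfl⟩ := h
  refine ⟨u * u + u * v * X ^ k * (X ^ 2 + 1) + v * v * X ^ k * X ^ k * X, ?_⟩
  simp only [emb_add, emb_mul, emb_pow, emb_one]
  change _ = _ + _ * _ * T ^ k * (T ^ 2 + 1) + _ * _ * T ^ k * T ^ k * T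
  linear_combination (emb u * emb v * T ^ k) * c.hs + (emb v * emb v * T ^ k * T ^ k) * c.hp

lemma O.trace (c : Ctx θ θ') {k : ℕ} {x x' : K} (h : O θ θ' k x x') :
    ∃ n, x + x' = T ^ k * emb n := by
  obtain ⟨u, v, rfl, rfl⟩ := h
  refine ⟨v * (X ^ 2 + 1), ?_⟩
  simp only [emb_add, emb_mul, emb_pow, emb_one]
  change _ = _ * (_ * (T ^ 2 + 1))
  linear_combination (emb v * T ^ k) * c.hs + emb u * two_zero

/-- bounded conjugates give bounded coordinates -/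
lemma O.coord (c : Ctx θ θ') {x x' : K} (h : O θ θ' 0 x x') {m : ℤ} (hx : vv x ≤ exp m)
    (hx' : vv x' ≤ exp m) :
    ∃ u v : F2[X], x = emb u + emb v * θ ∧ x' = emb u + emb v * θ' ∧
      vv (emb u) ≤ exp m ∧ vv (emb v) ≤ exp (m - 2) := by
  obtain ⟨u, v, h1, h2⟩ := h
  simp only [pow_zero, mul_one] at h1 h2
  have h3 : x + x' = emb v * (T ^ 2 + 1) := by
    rw [h1, h2]; linear_combination emb v * c.hs + emb u * two_zero
  have h4 : vv (T ^ 2 + 1) = exp 2 := by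
    rw [vv_add_eq (by rw [vv_one, vv_Tpow, exp_lt_exp]; norm_num), vv_Tpow]; rfl
  have h5 : vv (emb v) ≤ exp (m - 2) := by
    have := vv_add_le hx hx'
    rw [h3, vv_mul, h4] at this
    rw [sub_eq_add_neg, exp_add, exp_neg, le_mul_inv_iff₀ (by simp [zero_lt_iff])]
    exact this
  refine ⟨u, v, h1, h2, ?_, h5⟩
  have h6 : emb u = x - emb v * θ := by rw [h1]; ring
  rw [h6]
  exact vv_sub_le hx (vv_mono (vv_mul_le h5 c.hv) (by omega))

noncomputable def ee (θ : K) : K := emb (X ^ 2 + X + 1) + emb (X + 1) * T ^ 2 * θ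

lemma O_ee : O θ θ' 2 (ee θ) (ee θ') := ⟨_, _, rfl, rfl⟩

lemma ee_mul (c : Ctx θ θ') : ee θ * ee θ' = 1 := by
  simp only [ee, emb_add, emb_pow, emb_one]
  change (T ^ 2 + T + 1 + (T + 1) * T ^ 2 * θ) * (T ^ 2 + T + 1 + (T + 1) * T ^ 2 * θ') = 1
  linear_combination ((T ^ 2 + T + 1) * (T + 1) * T ^ 2) * c.hs + ((T + 1) ^ 2 * T ^ 4) * c.hp +
    (T + 2 * T ^ 2 + 2 * T ^ 3 + 2 * T ^ 4 + 2 * T ^ 5 + 2 * T ^ 6 + T ^ 7) * two_zero

lemma vv_ee' (c : Ctx θ θ') : vv (ee θ') = exp 5 := by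
  have h1 : vv (T + 1) = exp 1 := by
    rw [vv_add_eq (by rw [vv_one, vv_T, exp_lt_exp]; norm_num), vv_T]
  have h2 : vv (emb (X + 1 : F2[X]) * T ^ 2 * θ') = exp 5 := by
    rw [vv_mul, vv_mul, emb_add, emb_one, c.hv', vv_Tpow]
    change vv (T + 1) * _ * _ = _
    rw [h1, ← exp_add, ← exp_add]; rfl
  have h3 : vv (emb (X ^ 2 + X + 1 : F2[X])) ≤ exp 2 := by
    rw [emb_add, emb_add, emb_pow, emb_one]
    exact vv_add_le (vv_add_le (vv_Tpow 2).le (vv_mono vv_T.le (by omega)))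
      (vv_mono vv_one.le (by omega))
  rw [ee, add_comm, vv_add_eq (by rw [h2]; exact lt_of_le_of_lt h3 (by rw [exp_lt_exp]; omega)), h2]

lemma vv_ee (c : Ctx θ θ') : vv (ee θ) = exp (-5) := by
  have h := congrArg vv (ee_mul c)
  rw [vv_mul, vv_ee' c, vv_one] at h
  rw [exp_neg]
  exact eq_inv_of_mul_eq_one_left h

lemma exists_vv_le (x : K) : ∃ m : ℕ, vv x ≤ exp (m : ℤ) := by
  by_cases h : vv x = 0
  · exact ⟨0, by simp [h]⟩
  · refine ⟨(log (vv x)).toNat, ?_⟩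
    conv_lhs => rw [← exp_log h]
    rw [exp_le_exp]; omega

lemma emb_eq_zero_of_lt {p : F2[X]} (h : vv (emb p) ≤ exp (-1)) : p = 0 := by
  by_contra hp
  rw [vv_emb hp, exp_le_exp] at h; omega

lemma O.zero (c : Ctx θ θ') {k : ℕ} {x' : K} (h : O θ θ' k 0 x') : x' = 0 := by
  obtain ⟨m, hm⟩ := exists_vv_le x'
  have h1 := (h.mono (Nat.zero_le _)).mul c
    ((((O_ee (θ := θ) (θ' := θ')).mono (Nat.zero_le _)).swap c).pow c (m + 1))
  have h2 : vv (x' * ee θ ^ (m + 1)) ≤ exp (-1) :=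
    vv_mono (vv_mul_le hm (vv_pow_le (vv_ee c).le _)) (by push_cast; omega)
  obtain ⟨u, v, -, h4, h5, h6⟩ := h1.coord c (m := -1) (by simp [vv]) h2
  rw [emb_eq_zero_of_lt h5, emb_eq_zero_of_lt (vv_mono h6 (by omega)), emb_zero] at h4
  simp only [zero_mul, add_zero, mul_eq_zero] at h4
  rcases h4 with h4 | h4
  · exact h4
  · exfalso
    have := ee_mul c
    rw [pow_eq_zero_iff (by omega) |>.mp h4, zero_mul] at this
    exact zero_ne_one this

lemma Ctx.irr (c : Ctx θ θ') (k : ℕ) : Irr (T ^ k * θ) := by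
  intro a b ha hab
  have h1 : O θ θ' k (emb a * (T ^ k * θ) - emb b) (emb a * (T ^ k * θ') - emb b) :=
    ((O.poly k a).mul c (O.gen k)).sub (O.poly k b)
  rw [hab, sub_self] at h1
  have h2 := h1.zero c
  have h3 : emb (a * X ^ k * (X ^ 2 + 1)) = 0 := by
    simp only [emb_add, emb_mul, emb_pow, emb_one]
    change _ * T ^ k * (T ^ 2 + 1) = 0
    linear_combination h2 + hab - (emb a * T ^ k) * c.hs + emb b * two_zero
  have h4 := emb_eq_zero h3
  have h5 : (X ^ 2 + 1 : F2[X]) ≠ 0 := by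
    have : (X ^ 2 + 1 : F2[X]).Monic := by monicity!
    exact this.ne_zero
  exact mul_ne_zero (mul_ne_zero ha (pow_ne_zero _ X_ne_zero)) h5 h4

end Pool.Agent.H.MP_81ecdf_nt
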