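import Pool.Agent.H.MP_81ecdf_nt.C

set_option autoImplicit false

namespace Pool.Agent.H.MP_81ecdf_nt

open Polynomial WithZero

variable {θ θ' : K}

lemma O_theta : O θ θ' 0 θ θ' := by simpa using O.gen (θ := θ) (θ' := θ') 0

lemma gg_mul (c : Ctx θ θ') : (1 + T * θ) * (1 + T * θ') = T + 1 := by
  linear_combination T * c.hs + T ^ 2 * c.hp + T ^ 3 * two_zero

lemma vv_gg' (c : Ctx θ θ') : vv (1 + T * θ') = exp 3 := by
  have h : vv (T * θ') = exp 3 := by rw [vv_mul, vv_T, c.hv', ← exp_add]; rfl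
  rw [add_comm, vv_add_eq (by rw [h, vv_one, exp_lt_exp]; norm_num), h]

lemma vv_T1 : vv (T + 1) = exp 1 := by
  rw [vv_add_eq (by rw [vv_one, vv_T, exp_lt_exp]; norm_num), vv_T]

lemma vv_gg (c : Ctx θ θ') : vv (1 + T * θ) = exp (-2) := by
  have h := congrArg vv (gg_mul c)
  rw [vv_mul, vv_gg' c, vv_T1] at h
  have : vv (1 + T * θ) = exp 1 * (exp 3)⁻¹ := by
    rw [← h, mul_inv_cancel_right₀ exp_ne_zero]
  rw [this, ← exp_neg, ← exp_add]; rfl

lemma core (c : Ctx θ θ') {r a b : ℕ} (hab : a + b = 2 ^ r) {s : ℤ} {x x' : K}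
    (h : O θ θ' (2 ^ r + a) x x') (h0 : x ≠ 0) (hx : vv x ≤ exp (-s - 2))
    (hx' : vv x' ≤ exp (s + (2 ^ r + a : ℕ)))
    (h1 : 2 * ((2 ^ r : ℕ) : ℤ) ≤ 2 * s + (2 ^ r + a : ℕ) + 2)
    (h2 : 2 * s + (2 ^ r + a : ℕ) + 2 ≤ 3 * ((2 ^ r : ℕ) : ℤ)) : False := by
  set R := 2 ^ r with hR
  have hRpos : 0 < R := by positivity
  have hG : (1 + T * θ) ^ R = 1 + T ^ R * θ ^ R := by rw [hR, frob, one_pow, mul_pow]
  have hG' : (1 + T * θ') ^ R = 1 + T ^ R * θ' ^ R := by rw [hR, frob, one_pow, mul_pow]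
  have hO := h.mono (Nat.zero_le _)
  have hg : O θ θ' 0 (1 + T * θ) (1 + T * θ') := by
    have := ((O.poly 0 1).add (O.gen (θ := θ) (θ' := θ') 1 |>.mono (Nat.zero_le _)))
    simpa [emb_one] using this
  have hy : O θ θ' 0 (x' * (1 + T * θ) ^ R - x) (x * (1 + T * θ') ^ R - x') :=
    ((hO.swap c).mul c (hg.pow c R)).sub hO
  obtain ⟨n, hn⟩ := h.trace c
  obtain ⟨m, hm⟩ := ((O_theta.pow c R).mul c (hO.swap c)).trace c
  obtain ⟨N, hN⟩ := hO.norm c
  have hTR : (θ * θ') ^ R = T ^ (a + b) := by rw [c.hp, hab]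
  have e1 : x' * (1 + T * θ) ^ R - x = T ^ R * (T ^ a * emb n + θ ^ R * x') := by
    rw [hG]; linear_combination hn - x * two_zero
  have e2 : x * (1 + T * θ') ^ R - x' = T ^ R * (T ^ a * emb n + θ' ^ R * x) := by
    rw [hG']; linear_combination hn - x' * two_zero
  have hW : (x' * (1 + T * θ) ^ R - x) * (x * (1 + T * θ') ^ R - x') =
      T ^ (2 * R + a) * emb (X ^ a * n * n + n * m + X ^ b * N) := by
    rw [e1, e2]
    simp only [emb_add, emb_mul, emb_pow]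
    change _ = _ * (T ^ a * _ * _ + _ + T ^ b * _)
    linear_combination (T ^ (2 * R + a) * emb n) * hm + (T ^ (2 * R) * x * x') * hTR +
      (T ^ (2 * R + a) * T ^ b) * hN
  have hne : ¬ ((x' * (1 + T * θ) ^ R - x) = 0 ∧ (x * (1 + T * θ') ^ R - x') = 0) := by
    rintro ⟨p, q⟩
    have h3 : x * (((1 + T * θ) * (1 + T * θ')) ^ R - 1) = 0 := by
      rw [mul_pow]; linear_combination (1 + T * θ) ^ R * q + p
    rw [gg_mul c, mul_eq_zero, sub_eq_zero] at h3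
    rcases h3 with h3 | h3
    · exact h0 h3
    · have h4 := congrArg vv h3
      simp only [vv, map_pow, map_one] at h4
      have h5 := vv_T1
      simp only [vv] at h5
      rw [h5, ← exp_nsmul, ← exp_zero, exp_inj] at h4
      simp at h4; omega
  have hne2 : (x' * (1 + T * θ) ^ R - x) * (x * (1 + T * θ') ^ R - x') ≠ 0 := by
    intro h3
    rcases mul_eq_zero.mp h3 with p | q
    · rw [p] at hy
      exact hne ⟨p, hy.zero c⟩
    · have := hy.swap c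
      rw [q] at this
      exact hne ⟨this.zero c, q⟩
  have hW0 : (X ^ a * n * n + n * m + X ^ b * N) ≠ 0 := by
    intro h3
    rw [hW, h3, emb_zero, mul_zero] at hne2
    exact hne2 rfl
  have b1 : vv (x' * (1 + T * θ) ^ R - x) ≤ exp (s + (R + a : ℕ) - 2 * R) :=
    vv_sub_le (vv_mono (vv_mul_le hx' (vv_pow_le (vv_gg c).le R)) (by omega))
      (vv_mono hx (by omega))
  have b2 : vv (x * (1 + T * θ') ^ R - x') ≤ exp (3 * R - s - 2) :=
    vv_sub_le (vv_mono (vv_mul_le hx (vv_pow_le (vv_gg' c).le R)) (by omega))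
      (vv_mono hx' (by omega))
  have b3 := vv_mul_le b1 b2
  rw [hW, vv_mul, vv_Tpow, vv_emb hW0, ← exp_add, exp_le_exp] at b3
  push_cast at b3
  omega

lemma O_eta (c : Ctx θ θ') (r : ℕ) :
    O θ θ' (2 * 2 ^ r) (ee θ' ^ 2 ^ r) (ee θ ^ 2 ^ r) := by
  have h1 := ((((O.poly 0 (X + 1)).mul c O_theta).pow c (2 ^ r)).lift (2 * 2 ^ r)
    ((X ^ 2 + X + 1) ^ 2 ^ r)).swap c
  have h2 : ∀ z : K, ee z ^ 2 ^ r =
      emb ((X ^ 2 + X + 1) ^ 2 ^ r) + T ^ (2 * 2 ^ r) * (emb (X + 1) * z) ^ 2 ^ r := by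
    intro z
    rw [ee, frob, emb_pow, pow_mul, ← mul_pow]
    congr 2; ring
  rw [h2, h2]; exact h1

lemma core' (c : Ctx θ θ') {r a b : ℕ} (hab : a + b = 2 ^ r) {s : ℤ} (j : ℕ) {x x' : K}
    (h : O θ θ' (2 ^ r + a) x x') (h0 : x ≠ 0)
    (hx : vv x ≤ exp (-(s + 5 * (2 ^ r * j : ℕ)) - 2))
    (hx' : vv x' ≤ exp (s + 5 * (2 ^ r * j : ℕ) + (2 ^ r + a : ℕ)))
    (h1 : 2 * ((2 ^ r : ℕ) : ℤ) ≤ 2 * s + (2 ^ r + a : ℕ) + 2)
    (h2 : 2 * s + (2 ^ r + a : ℕ) + 2 ≤ 3 * ((2 ^ r : ℕ) : ℤ)) : False := by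
  have h3 := h.mul c (((O_eta c r).mono (by omega)).pow c j)
  rw [← pow_mul, ← pow_mul] at h3
  have h4 : ee θ' ≠ 0 := by
    intro h5
    have := ee_mul c
    rw [h5, mul_zero] at this
    exact zero_ne_one this
  refine core c hab (s := s) h3 (mul_ne_zero h0 (pow_ne_zero _ h4)) ?_ ?_ h1 h2
  · exact vv_mono (vv_mul_le hx (vv_pow_le (vv_ee' c).le _)) (by omega)
  · exact vv_mono (vv_mul_le hx' (vv_pow_le (vv_ee c).le _)) (by omega)

lemma O_Y (c : Ctx θ θ') (k i : ℕ) :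
    O θ θ' k (Y (T ^ k * θ) (T ^ k * θ) i) (Y (T ^ k * θ) (T ^ k * θ') i) ∧
    O θ θ' k (Y (T ^ k * θ) (T ^ k * θ) (i + 1)) (Y (T ^ k * θ) (T ^ k * θ') (i + 1)) := by
  induction i with
  | zero =>
    constructor
    · have := O.poly (θ := θ) (θ' := θ') k (-1)
      rw [emb_neg, emb_one] at this
      exact this
    · exact (O.gen k).sub (O.poly k _)
  | succ i ih => exact ⟨ih.2, ((O.poly k _).mul c ih.2).add ih.1⟩

lemma vv_conj (c : Ctx θ θ') (k i : ℕ) :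
    vv (Y (T ^ k * θ) (T ^ k * θ') (i + 1)) ≤ exp ((D (T ^ k * θ) i : ℤ) + (k + 2)) ∧
    vv (Y (T ^ k * θ) (T ^ k * θ') i) ≤ exp ((D (T ^ k * θ) i : ℤ) + (k + 2)) :=
  vv_Y' (by omega) (vv_mono (vv_mul_le (vv_Tpow k).le c.hv) (by omega))
    (vv_mul_le (vv_Tpow k).le c.hv'.le) i

lemma Y_ne (c : Ctx θ θ') (k i : ℕ) : Y (T ^ k * θ) (T ^ k * θ) i ≠ 0 := by
  intro h
  have := vv_Y (c.irr k) i
  rw [h] at this
  simp only [vv, map_zero] at this
  exact exp_ne_zero this.symm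

lemma D_bound (c : Ctx θ θ') {k : ℕ} (hk : 8 ≤ k) :
    ∃ C : ℕ, ∀ n, D (T ^ k * θ) n ≤ 40 * n + C := by
  obtain ⟨r, hr1, hr2⟩ : ∃ r, 2 ^ (r + 3) ≤ k ∧ k < 2 ^ (r + 4) := by
    have h1 := Nat.pow_log_le_self 2 (show k ≠ 0 by omega)
    have h2 := Nat.lt_pow_succ_log_self (show 1 < 2 by norm_num) k
    have h3 : 3 ≤ Nat.log 2 k := Nat.le_log_of_pow_le (by norm_num) hk
    obtain ⟨r, hr⟩ := Nat.exists_eq_add_of_le' h3
    exact ⟨r, hr ▸ h1, by rw [hr] at h2; exact h2⟩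
  set M := 2 ^ r with hM
  have hM0 : 0 < M := by positivity
  have e3 : 2 ^ (r + 3) = 8 * M := by rw [hM]; ring
  have e4 : 2 ^ (r + 4) = 16 * M := by rw [hM]; ring
  obtain ⟨a, ha⟩ := Nat.exists_eq_add_of_le hr1
  have hab : a + (8 * M - a) = 2 ^ (r + 3) := by omega
  have key : ∀ n, (D (T ^ k * θ) n : ℤ) ≤
      ((16 * M - k) / 2 + 3 * (n % M) + 40 * (M * (n / M)) + 1 : ℕ) := by
    intro n
    induction n with
    | zero => simp [D]; positivity
    | succ n ih =>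
      by_contra hcon
      have hd1 := Nat.div_add_mod n M
      have hd2 := Nat.div_add_mod (n + 1) M
      have hm1 := Nat.mod_lt n hM0
      have hm2 := Nat.mod_lt (n + 1) hM0
      have hstep : 3 * (n % M) + 40 * (M * (n / M)) + 3 ≤
          3 * ((n + 1) % M) + 40 * (M * ((n + 1) / M)) := by
        have : M * (n / M) ≤ M * ((n + 1) / M) :=
          Nat.mul_le_mul_left _ (Nat.div_le_div_right (by omega))
        omega
      have e5 : 2 ^ (r + 3) * ((n + 1) / M) = 8 * (M * ((n + 1) / M)) := by rw [e3]; ring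
      have hO := (O_Y c k n).2
      have hx := (vv_Y (c.irr k) (n + 1)).le
      have hx' := (vv_conj c k n).1
      have h0 := Y_ne c k (n + 1)
      refine core' c hab (s := (((16 * M - k) / 2 + 3 * ((n + 1) % M) : ℕ) : ℤ)) ((n + 1) / M)
        (ha ▸ hO) h0 (vv_mono hx ?_) (vv_mono hx' ?_) ?_ ?_
      · rw [e5]; omega
      · rw [e5, ← ha]; omega
      · rw [← ha, e3]; omega
      · rw [← ha, e3]; omega
  refine ⟨8 * M + 1, fun n => ?_⟩
  have := key n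
  have hd1 := Nat.div_add_mod n M
  omega

end Pool.Agent.H.MP_81ecdf_nt
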