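import Pool.Agent.H.MP_81ecdf_nt.D

set_option autoImplicit false

namespace Pool.Agent.H.MP_81ecdf_nt

open Polynomial WithZero

variable {θ θ' : K}

lemma exists_root : ∃ y : PowerSeries F2,
    y ^ 2 + (1 + PowerSeries.X ^ 2) * y + PowerSeries.X ^ 3 = 0 ∧ PowerSeries.X ∣ y := by
  have hH := IsAdicComplete.henselianRing (PowerSeries F2) (Ideal.span {PowerSeries.X})
  obtain ⟨y, hy1, hy2⟩ := hH.is_henselian
    (X ^ 2 + C (1 + PowerSeries.X ^ 2) * X + C (PowerSeries.X ^ 3)) (by monicity!) 0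
    (by
      simp only [eval_add, eval_pow, eval_X, eval_mul, eval_C]
      rw [Ideal.mem_span_singleton]
      exact ⟨PowerSeries.X ^ 2, by ring⟩)
    (by
      have h1 : (derivative (X ^ 2 + C (1 + PowerSeries.X ^ 2) * X + C (PowerSeries.X ^ 3) :
          (PowerSeries F2)[X])).eval 0 = 1 + PowerSeries.X ^ 2 := by
        simp only [derivative_add, derivative_X_pow, derivative_mul, derivative_C, derivative_X]
        simp
      rw [h1]
      apply IsUnit.map
      rw [PowerSeries.isUnit_iff_constantCoeff]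
      simp)
  refine ⟨y, ?_, by simpa [Ideal.mem_span_singleton] using hy2⟩
  simpa only [IsRoot, eval_add, eval_pow, eval_X, eval_mul, eval_C] using hy1

lemma T_eq : T = HahnSeries.single (-1 : ℤ) (1 : F2) := by simp [T, emb]

lemma exists_ctx : ∃ θ θ' : K, Ctx θ θ' := by
  obtain ⟨y, hy1, z, hz⟩ := exists_root
  set U : K := ((PowerSeries.X : PowerSeries F2) : K) with hU
  have hTU : T * U = 1 := by
    rw [T_eq, hU, PowerSeries.coe_X, HahnSeries.single_mul_single]; simp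
  have h1 : (y : K) ^ 2 + (1 + U ^ 2) * (y : K) + U ^ 3 = 0 := by
    have := congrArg (HahnSeries.ofPowerSeries ℤ F2) hy1
    simpa only [map_add, map_mul, map_pow, map_one, map_zero] using this
  have vU : vv U = exp (-1) := by
    have := congrArg vv hTU
    rw [vv_mul, vv_T, vv_one] at this
    rw [exp_neg]; exact eq_inv_of_mul_eq_one_right this
  have vz : vv (z : K) ≤ exp 0 := by
    rw [exp_zero]; exact (LaurentSeries.val_le_one_iff_eq_coe F2 _).mpr ⟨z, rfl⟩
  have vy : vv (y : K) ≤ exp (-1) := by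
    rw [hz, PowerSeries.coe_mul]
    exact vv_mono (vv_mul_le vU.le vz) (by omega)
  have h2 : vv (1 + (U ^ 2 + (y : K))) = exp 0 := by
    rw [vv_add_eq, vv_one]
    rw [vv_one]
    exact lt_of_le_of_lt (vv_add_le (vv_mono (vv_pow_le vU.le 2) (by omega)) vy)
      (by rw [exp_lt_exp]; omega)
  have h3 : vv (y : K) ≤ exp (-3) := by
    have h4 : (y : K) * (1 + (U ^ 2 + (y : K))) = U ^ 3 := by
      linear_combination h1 - U ^ 3 * two_zero
    have h5 := congrArg vv h4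
    rw [vv_mul, h2, exp_zero, mul_one] at h5
    rw [h5]
    exact vv_mono (vv_pow_le vU.le 3) (by omega)
  refine ⟨T ^ 2 * y, T ^ 2 * y + T ^ 2 + 1, ?_, ?_, ?_⟩
  · linear_combination (T ^ 2 * (y : K)) * two_zero
  · linear_combination T ^ 4 * h1 - (T ^ 2 * (y : K) * (T * U + 1) +
      T * ((T * U) ^ 2 + T * U + 1)) * hTU - T * two_zero
  · exact vv_mono (vv_mul_le (vv_Tpow 2).le h3) (by omega)

lemma periodic (c : Ctx θ θ') (k : ℕ) :
    ∃ l, 0 < l ∧ ∃ i₀, ∀ i ≥ i₀, pq (T ^ k * θ) (i + l) = pq (T ^ k * θ) i := by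
  set x := T ^ k * θ with hx
  let S : Set F2[X] := {p | p.natDegree ≤ k + 2}
  have hS : S.Finite := finite_natDegree_le _
  let f : F2[X] × F2[X] × F2[X] → K := fun w => -(emb w.1 + emb w.2.1 * θ) / emb w.2.2
  have hfin : (f '' (S ×ˢ S ×ˢ S)).Finite := (hS.prod (hS.prod hS)).image f
  have hmem : ∀ i, cq x (i + 1) ∈ f '' (S ×ˢ S ×ˢ S) := by
    intro i
    obtain ⟨hO1, hO2⟩ := O_Y c k i
    obtain ⟨hv2, hv1⟩ := vv_conj c k i
    have hw1 := (vv_Y (c.irr k) i).le
    have hw2 := (vv_Y (c.irr k) (i + 1)).le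
    have hD := D_succ x i
    rw [← hx] at hw1 hw2 hv1 hv2 hO1 hO2
    obtain ⟨N, hN⟩ := hO2.norm c
    obtain ⟨u, v, h1, -, h3, h4⟩ := ((hO1.mul c (hO2.swap c)).mono (Nat.zero_le _)).coord c
      (m := ((k + 2 : ℕ) : ℤ)) (vv_mono (vv_mul_le hw1 hv2) (by omega))
      (vv_mono (vv_mul_le hv1 hw2) (by omega))
    have hN2 : vv (emb N) ≤ exp ((k + 2 : ℕ) : ℤ) := by
      rw [← hN]; exact vv_mono (vv_mul_le hw2 hv2) (by omega)
    refine ⟨(u, v, N), ⟨natDegree_le_of_vv h3, natDegree_le_of_vv (vv_mono h4 (by omega)),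
      natDegree_le_of_vv hN2⟩, ?_⟩
    have h0 : Y x x (i + 1) ≠ 0 := Y_ne c k (i + 1)
    have h0' : Y x (T ^ k * θ') (i + 1) ≠ 0 := by
      intro h5
      have := hO2.swap c
      rw [h5] at this
      exact h0 (this.zero c)
    have h6 := Y_mul (c.irr k) i
    rw [← hx] at h6
    show -(emb u + emb v * θ) / emb N = _
    rw [← h1, ← hN, div_eq_iff (mul_ne_zero h0 h0')]
    linear_combination - (Y x (T ^ k * θ') (i + 1)) * h6
  obtain ⟨i, j, hij, h⟩ := hfin.exists_lt_map_eq_of_forall_mem hmem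
  refine ⟨j - i, by omega, i + 1, fun n hn => ?_⟩
  obtain ⟨m, rfl⟩ := Nat.exists_eq_add_of_le hn
  have := cq_shift h m
  unfold pq
  rw [this]
  congr 2; omega

lemma block {f : ℕ → ℕ} {l i₀ : ℕ} (h : ∀ i ≥ i₀, f (i + l) = f i) (N : ℕ) :
    ∑ j ∈ Finset.range (N * l), f (i₀ + j) = N * ∑ j ∈ Finset.range l, f (i₀ + j) := by
  have h1 : ∀ N j, f (i₀ + (N * l + j)) = f (i₀ + j) := by
    intro N j
    induction N with
    | zero => simp
    | succ N ih => rw [← ih, ← h (i₀ + (N * l + j)) (by omega)]; congr 1; ring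
  induction N with
  | zero => simp
  | succ N ih =>
    rw [add_mul, one_mul, Finset.sum_range_add, ih, add_mul, one_mul]
    simp only [h1]

lemma period_bound (c : Ctx θ θ') {k : ℕ} (hk : 8 ≤ k) {l i₀ : ℕ} (hi : 0 < i₀)
    (h : ∀ i ≥ i₀, pq (T ^ k * θ) (i + l) = pq (T ^ k * θ) i) :
    ∑ j ∈ Finset.range l, (pq (T ^ k * θ) (i₀ + j)).natDegree ≤ 40 * l := by
  obtain ⟨C, hC⟩ := D_bound c hk
  obtain ⟨i₁, rfl⟩ := Nat.exists_eq_add_of_lt hi
  simp only [zero_add] at h ⊢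
  set L := ∑ j ∈ Finset.range l, (pq (T ^ k * θ) (i₁ + 1 + j)).natDegree with hL
  have h1 : ∀ N, N * L ≤ 40 * (i₁ + N * l) + C := by
    intro N
    refine le_trans ?_ (hC (i₁ + N * l))
    rw [D, Finset.sum_range_add, hL, ← block (f := fun i => (pq (T ^ k * θ) i).natDegree)
      (fun i hi => by rw [h i hi]) N]
    refine le_trans (le_of_eq ?_) (Nat.le_add_left _ _)
    refine Finset.sum_congr rfl fun j _ => ?_
    congr 2; ring
  by_contra hcon
  have h2 := h1 (40 * i₁ + C + 1)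
  have h3 : (40 * i₁ + C + 1) * (40 * l + 1) ≤ (40 * i₁ + C + 1) * L :=
    Nat.mul_le_mul_left _ (by omega)
  nlinarith

section
variable {F : Type} [Field F]

noncomputable def per (x : LaurentSeries F) : ℕ :=
  sInf {l | 0 < l ∧ ∃ i₀, ∀ i ≥ i₀, pq x (i + l) = pq x i}

noncomputable def st (x : LaurentSeries F) : ℕ :=
  sInf {i₀ | 0 < i₀ ∧ ∀ i ≥ i₀, pq x (i + per x) = pq x i}

noncomputable def esc (x : LaurentSeries F) (n : ℕ) : ℝ :=
  (∑ i ∈ Finset.range (per x), max (((pq x (st x + i)).natDegree : ℝ) - n) 0) /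
    ∑ i ∈ Finset.range (per x), ((pq x (st x + i)).natDegree : ℝ)

lemma esc_nonneg (x : LaurentSeries F) (n : ℕ) : 0 ≤ esc x n :=
  div_nonneg (Finset.sum_nonneg fun _ _ => le_max_right _ _)
    (Finset.sum_nonneg fun _ _ => Nat.cast_nonneg _)

end

lemma esc_le (c : Ctx θ θ') {k : ℕ} (hk : 8 ≤ k) {n : ℕ} (hn : 1 ≤ n) :
    esc (T ^ k * θ) n ≤ 39 / 40 := by
  set x := T ^ k * θ with hx
  have h1 : per x ∈ {l | 0 < l ∧ ∃ i₀, ∀ i ≥ i₀, pq x (i + l) = pq x i} :=
    Nat.sInf_mem (periodic c k)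
  obtain ⟨h2, i₀, h3⟩ := h1
  have h4 : st x ∈ {i₀ | 0 < i₀ ∧ ∀ i ≥ i₀, pq x (i + per x) = pq x i} :=
    Nat.sInf_mem ⟨i₀ + 1, by omega, fun i hi => h3 i (by omega)⟩
  obtain ⟨h5, h6⟩ := h4
  have h7 := period_bound c hk h5 h6
  rw [← hx] at h7
  have h8 : ∀ i, (1 : ℝ) ≤ (pq x (st x + i)).natDegree := by
    intro i
    have := (vv_cq (c.irr k) (st x - 1 + i)).2
    rw [← hx, show st x - 1 + i + 1 = st x + i by omega] at this
    exact_mod_cast this
  have h9 : (∑ i ∈ Finset.range (per x), ((pq x (st x + i)).natDegree : ℝ)) ≤ 40 * per x := by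
    exact_mod_cast h7
  have h10 : (per x : ℝ) ≤ ∑ i ∈ Finset.range (per x), ((pq x (st x + i)).natDegree : ℝ) := by
    simpa using Finset.sum_le_sum (s := Finset.range (per x)) (fun i _ => h8 i)
  have h11 : (0 : ℝ) < per x := by exact_mod_cast h2
  have h12 : ∑ i ∈ Finset.range (per x), max (((pq x (st x + i)).natDegree : ℝ) - n) 0 ≤
      ∑ i ∈ Finset.range (per x), (((pq x (st x + i)).natDegree : ℝ) - 1) := by
    refine Finset.sum_le_sum fun i _ => max_le ?_ (by linarith [h8 i])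
    have : (1 : ℝ) ≤ n := by exact_mod_cast hn
    linarith
  rw [Finset.sum_sub_distrib] at h12
  simp only [Finset.sum_const, Finset.card_range, nsmul_eq_mul, mul_one] at h12
  rw [esc, div_le_iff₀ (by linarith)]
  linarith

end Pool.Agent.H.MP_81ecdf_nt
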